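import Pool.Agent.H24.UG.T7

/-!
UNIFORM LOCAL GAP (`MP_c59857_nt`): row UA3, finite combinatorics.
-/

set_option autoImplicit false

open MeasureTheory ProbabilityTheory Filter Topology Finset
open scoped Nat ENNReal

namespace Pool.Agent.H72.UG

open Pool.Agent.H24.UG
open Pool.Agent.H67.AG (κ₀)

theorem pf_UA3 : T_UA3 := by
  intro k γ a hγ hγ1 ha h1 h
  have hai : ∀ i, a i ≤ 16 * κ₀ * γ ^ 2 := by
    intro i
    have h2 := h1 i
    have h3 : γ * a i ≤ γ * (16 * κ₀ * γ ^ 2) := by
      calc γ * a i ≤ 16 * κ₀ * γ ^ 3 := h2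
        _ = γ * (16 * κ₀ * γ ^ 2) := by ring
    exact le_of_mul_le_mul_left h3 hγ
  have hγ2 : γ ^ 2 ≤ γ := by nlinarith
  have key : ∀ I : Finset (Fin k), ∑ i ∈ I, a i ≤ 17 * κ₀ * γ ^ 2 := by
    intro I
    induction I using Finset.induction_on with
    | empty =>
      have : (0 : ℝ) ≤ 17 * κ₀ * γ ^ 2 := by unfold κ₀; positivity
      simpa using this
    | insert i I hi ih =>
      have h3 := h (insert i I)
      have h2 := hai i
      have h0 : 0 ≤ ∑ x ∈ I, a x := Finset.sum_nonneg fun x _ => ha x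
      have h4 := ha i
      rw [Finset.sum_insert hi] at h3 ⊢
      unfold κ₀ at *
      set u := a i + ∑ x ∈ I, a x with hu
      have hu0 : 0 ≤ u := by positivity
      have hu1 : u ≤ 33 / 10000 * γ ^ 2 := by linarith
      have hu2 : u ^ 2 ≤ 33 / 10000 * γ * u := by
        have : u ≤ 33 / 10000 * γ := by linarith
        nlinarith
      have h5 : γ * (u * (1 - 33 / 20000)) ≤ γ * (16 * (1 / 10000) * γ ^ 2) := by
        nlinarith
      have h6 : u * (1 - 33 / 20000) ≤ 16 * (1 / 10000) * γ ^ 2 :=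
        le_of_mul_le_mul_left h5 hγ
      nlinarith [sq_nonneg γ]
  exact key Finset.univ

end Pool.Agent.H72.UG
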